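import Pool.Agent.H655.EF.Main

/-!
MP_99d0bb_lc, Q1: homeomorphism of surfaces, coded as closed subsets of a Polish space, is Borel
reducible to isomorphism of countable graphs.
-/

set_option autoImplicit false

open Set Filter Topology

namespace Pool.Agent.Results.MP_99d0bb_lc.SurfacesGraphs

open Pool.Agent.H655.EF

/-- The closed set `F` is (with the subspace topology) a topological `n`-manifold without boundary: it
is locally homeomorphic to open subsets of `ℝⁿ`. (Subspaces of Polish spaces are Hausdorff and second
countable.) -/
def IsMfd {U : Type} [TopologicalSpace U] (n : ℕ) (F : FU U) : Prop :=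
  Nonempty (ChartedSpace (EuclideanSpace ℝ (Fin n)) F.toSet)

/-- The closed sets are homeomorphic. -/
def Homeomorphic {U : Type} [TopologicalSpace U] (F F' : FU U) : Prop :=
  Nonempty (F.toSet ≃ₜ F'.toSet)

/-- The element of `2 ^ (ℕ × ℕ)` is a graph. -/
def IsGraph (G : ℕ → ℕ → Bool) : Prop := (∀ i j, G i j = G j i) ∧ ∀ i, G i i = false

/-- The graphs are isomorphic. -/
def GraphIso (G G' : ℕ → ℕ → Bool) : Prop :=
  ∃ σ : Equiv.Perm ℕ, ∀ i j, G i j = G' (σ i) (σ j)

/-- For every Polish space `U` and every `n` (in particular for `n = 2`) there is a Borel map from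
the Effros Borel space of closed subsets of `U` to graphs on the natural numbers, such that two
closed subsets which are `n`-manifolds without boundary are homeomorphic if and only if the
corresponding graphs are isomorphic. -/
theorem result (U : Type) [TopologicalSpace U] [PolishSpace U] (n : ℕ) :
    ∃ f : FU U → (ℕ → ℕ → Bool), Measurable f ∧ (∀ F, IsGraph (f F)) ∧
      ∀ F F' : FU U, IsMfd n F → IsMfd n F' →
        (Homeomorphic F F' ↔ GraphIso (f F) (f F')) := by
  classical
  obtain ⟨G, hG, hs, hi, hc⟩ := FU_graph U (EuclideanSpace ℝ (Fin n))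
  refine ⟨fun F i j => decide (G F i j), ?_, ?_, ?_⟩
  · refine measurable_pi_iff.2 fun i => measurable_pi_iff.2 fun j => ?_
    refine measurable_to_bool ?_
    have h1 : (fun F : FU U => decide (G F i j)) ⁻¹' {true} = {F | G F i j} := by
      ext F
      simp
    rw [h1]
    exact measurableSet_setOfPred.2 (hG i j)
  · intro F
    exact ⟨fun i j => decide_eq_decide.2 ⟨hs F i j, hs F j i⟩, fun i => decide_eq_false (hi F i)⟩
  · intro F F' hF hF'
    show Nonempty _ ↔ _
    rw [hc F F' hF hF']
    refine exists_congr fun σ => forall_congr' fun i => forall_congr' fun j => ?_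
    exact decide_eq_decide.symm

end Pool.Agent.Results.MP_99d0bb_lc.SurfacesGraphs
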